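import Pool.Agent.Run7.h701.CA.K

set_option autoImplicit false

/-!
# Periods of additive cellular automata: a criterion for `π_σ(p) < ub_σ(p)`

Let `p`, `q` be primes such that `p - 1` divides `q - 1`, `p` is a primitive root modulo `q`, and `q` is an `ℓ`-th power
modulo `p` for a prime divisor `ℓ` of `p - 1`. Then `ℓ π_q(p) ≤ ub_q(p) = p ^ (q - 1) - 1`, so that the bound is not attained
for `σ = q`. In particular, it is not attained, for some `σ`, for every prime `p < 100` with `p ≠ 2, 5, 17`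
(the case `p = 2` is known; `5` and `17` are Fermat primes, for which the criterion does not apply).

Proof. Let `ζ ≠ 1` be a `q`-th root of unity in an algebraic closure. As `p` generates the units modulo `q`,
`(a + b ζ) ^ (1 + p + … + p ^ (q - 2)) = ∏_{j = 1}^{q - 1} (a + b ζ ^ j)`, and `(a + b) ∏_{j ≥ 1} (a + b ζ ^ j) = a ^ q + b ^ q`,
which is `a + b` as `p - 1` divides `q - 1`. So the product, the norm of `a + b ζ`, is `1` if `a + b ≠ 0`, and it is
`∏ (1 - ζ ^ j) = q` if `a + b = 0`, `b ≠ 0`. So the norm is always an `ℓ`-th power in the prime field, and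
`(a + b ζ) ^ ((p ^ (q - 1) - 1) / ℓ) = 1`.
-/

namespace Pool.Agent.Results.MP_146b98_nt.PrimitiveRootCriterion

open Polynomial

/-- The ring `𝔽_p[x] / (x ^ σ - 1)`. -/
abbrev R (σ p : ℕ) : Type := (ZMod p)[X] ⧸ Ideal.span {(X ^ σ - 1 : (ZMod p)[X])}

/-- The element `a + b x`. -/
noncomputable def el (σ p : ℕ) (a b : ZMod p) : R σ p := Ideal.Quotient.mk _ (C a + C b * X)

/-- `Π_σ(a, b; p)`: the least `k ≥ 1` with `(a + b x) ^ (k + l) = (a + b x) ^ l` for some `l ≥ 0`. -/
noncomputable def period (σ p : ℕ) (a b : ZMod p) : ℕ :=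
  sInf {k : ℕ | 1 ≤ k ∧ ∃ l : ℕ, el σ p a b ^ (k + l) = el σ p a b ^ l}

/-- `π_σ(p)`, the maximum of the periods. -/
noncomputable def maxPeriod (σ p : ℕ) : ℕ := sSup {k : ℕ | ∃ a b : ZMod p, k = period σ p a b}

/-- `ub_σ(p)`: `p ^ k (p ^ m - 1)`, where `p ^ k` is the exact power of `p` dividing `σ` and `m` is the multiplicative order of
`p` modulo `σ / p ^ k` (which is `1` if `σ / p ^ k = 1`). -/
noncomputable def ub (σ p : ℕ) : ℕ :=
  p ^ padicValNat p σ * (p ^ orderOf (p : ZMod (σ / p ^ padicValNat p σ)) - 1)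

lemma el_pow {p q l : ℕ} [Fact p.Prime] (hq : q.Prime) (hq1 : Odd q) (hqp : q ≠ p) (hl : l.Prime) (h1 : l ∣ p - 1)
    (h2 : (p - 1) ∣ q - 1) (h3 : orderOf (p : ZMod q) = q - 1) (h4 : (q : ZMod p) ^ ((p - 1) / l) = 1) (a b : ZMod p) :
    el q p a b ^ ((p ^ (q - 1) - 1) / l + 1) = el q p a b ^ 1 := by
  classical
  have hp := (Fact.out : p.Prime)
  unfold el
  rw [← map_pow, ← map_pow, Ideal.Quotient.eq, Ideal.mem_span_singleton, pow_one]
  set F := AlgebraicClosure (ZMod p) with hF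
  have : CharP F p := charP_of_injective_algebraMap (algebraMap (ZMod p) F).injective p
  have hq0 : NeZero (q : F) := ⟨by
    intro h
    have h5 := (CharP.cast_eq_zero_iff F p q).1 h
    exact hqp ((Nat.prime_dvd_prime_iff_eq hp hq).1 h5).symm⟩
  obtain ⟨ζ, hζ⟩ := HasEnoughRootsOfUnity.exists_primitiveRoot F q
  rw [← Polynomial.map_dvd_map' (algebraMap (ZMod p) F)]
  have e1 : (X ^ q - 1 : (ZMod p)[X]).map (algebraMap (ZMod p) F) = X ^ q - 1 := by simp
  rw [e1, X_pow_sub_one_eq_prod hq.pos hζ]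
  refine Finset.prod_dvd_of_coprime ?_ ?_
  · intro x _ y _ hxy
    exact Polynomial.pairwise_coprime_X_sub_C Function.injective_id hxy
  · intro w hw
    rw [mem_nthRootsFinset hq.pos] at hw
    rw [dvd_iff_isRoot, IsRoot.def]
    have h5 := Run7.h701.CA.pw (F := F) hq hq1 hl h1 h2 h3 h4 hw a b
    simp only [Polynomial.map_sub, Polynomial.map_pow, Polynomial.map_add, Polynomial.map_mul, Polynomial.map_C,
      Polynomial.map_X, eval_sub, eval_pow, eval_add, eval_mul, eval_C, eval_X]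
    rw [mul_comm ((algebraMap (ZMod p) F) b) w, h5, sub_self]

/-- the criterion -/
theorem criterion {p q l : ℕ} (hp : p.Prime) (hq : q.Prime) (hl : l.Prime) (h1 : l ∣ p - 1) (h2 : (p - 1) ∣ q - 1)
    (h3 : orderOf (p : ZMod q) = q - 1) (h4 : q ^ ((p - 1) / l) ≡ 1 [MOD p]) :
    l * maxPeriod q p ≤ ub q p ∧ maxPeriod q p < ub q p := by
  have : Fact p.Prime := ⟨hp⟩
  have hp2 := hp.two_le
  have hq2 := hq.two_le
  have hl2 := hl.two_le
  have hlp : l ≤ p - 1 := by
    rcases Nat.eq_zero_or_pos (p - 1) with h | h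
    · omega
    · exact Nat.le_of_dvd h h1
  have hpq : p - 1 ≤ q - 1 := Nat.le_of_dvd (by omega) h2
  have hqp : q ≠ p := by
    rintro rfl
    rw [ZMod.natCast_self, orderOf_eq_zero] at h3
    · omega
    · rw [isOfFinOrder_iff_pow_eq_one]
      rintro ⟨n, hn, h7⟩
      rw [zero_pow hn.ne'] at h7
      exact zero_ne_one h7
  have hq1 : Odd q := hq.odd_of_ne_two (by omega)
  have h4' : (q : ZMod p) ^ ((p - 1) / l) = 1 := by
    have := (ZMod.natCast_eq_natCast_iff _ _ _).2 h4
    push_cast at this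
    exact this
  have hv : padicValNat p q = 0 := padicValNat.eq_zero_of_not_dvd fun h =>
    hqp ((Nat.prime_dvd_prime_iff_eq hp hq).1 h).symm
  have hub : ub q p = p ^ (q - 1) - 1 := by
    unfold ub
    rw [hv, pow_zero, one_mul, Nat.div_one, h3]
  have hlK : l ∣ p ^ (q - 1) - 1 := by
    have h5 : (p - 1) ∣ p ^ (q - 1) - 1 := by simpa using Nat.sub_dvd_pow_sub_pow p 1 (q - 1)
    exact h1.trans h5
  have hbig : 1 ≤ p ^ (q - 1) - 1 := by
    have h5 : p ^ 1 ≤ p ^ (q - 1) := Nat.pow_le_pow_right (by omega) (by omega)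
    rw [pow_one] at h5
    omega
  have hK1 : 1 ≤ (p ^ (q - 1) - 1) / l := Nat.div_pos (Nat.le_of_dvd hbig hlK) hl.pos
  have hper : ∀ a b : ZMod p, period q p a b ≤ (p ^ (q - 1) - 1) / l := fun a b =>
    Nat.sInf_le ⟨hK1, 1, el_pow hq hq1 hqp hl h1 h2 h3 h4' a b⟩
  have hmax : maxPeriod q p ≤ (p ^ (q - 1) - 1) / l := by
    refine csSup_le ⟨_, 0, 0, rfl⟩ ?_
    rintro k ⟨a, b, rfl⟩
    exact hper a b
  rw [hub]
  constructor
  · calc l * maxPeriod q p ≤ l * ((p ^ (q - 1) - 1) / l) := Nat.mul_le_mul_left _ hmax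
      _ = _ := Nat.mul_div_cancel' hlK
  · exact hmax.trans_lt (Nat.div_lt_self (by omega) (by omega))

/-- a test for the hypotheses of the criterion -/
def test (p q l : ℕ) : Prop :=
  (2 ≤ p ∧ ∀ m < p, m ∣ p → m = 1) ∧ (2 ≤ q ∧ ∀ m < q, m ∣ q → m = 1) ∧ (2 ≤ l ∧ ∀ m < l, m ∣ l → m = 1) ∧
  (p - 1) % l = 0 ∧ (q - 1) % (p - 1) = 0 ∧ p ^ (q - 1) % q = 1 ∧
  (∀ m < q, m ∣ q - 1 → m = 1 ∨ p ^ ((q - 1) / m) % q ≠ 1) ∧ q ^ ((p - 1) / l) % p = 1

instance (p q l : ℕ) : Decidable (test p q l) := by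
  unfold test
  infer_instance

lemma of_test {p q l : ℕ} (h : test p q l) : ∃ σ : ℕ, 1 ≤ σ ∧ maxPeriod σ p < ub σ p := by
  obtain ⟨hp, hq, hl, h1, h2, h3, h4, h5⟩ := h
  have hp' : p.Prime := Nat.prime_def_lt.2 hp
  have hq' : q.Prime := Nat.prime_def_lt.2 hq
  have hl' : l.Prime := Nat.prime_def_lt.2 hl
  have hcast : ∀ n : ℕ, (p : ZMod q) ^ n = 1 ↔ p ^ n % q = 1 := by
    intro n
    have h6 : (p : ZMod q) ^ n = 1 ↔ ((p ^ n : ℕ) : ZMod q) = ((1 : ℕ) : ZMod q) := by
      push_cast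
      exact Iff.rfl
    rw [h6, ZMod.natCast_eq_natCast_iff]
    unfold Nat.ModEq
    rw [Nat.mod_eq_of_lt hq'.one_lt]
  have hord : orderOf (p : ZMod q) = q - 1 := by
    refine orderOf_eq_of_pow_and_pow_div_prime (by have := hq'.two_le; omega) ((hcast _).2 h3) ?_
    intro r hr hrq
    rw [Ne, hcast]
    rcases lt_or_ge r q with h | h
    · rcases h4 r h hrq with h6 | h6
      · exact absurd h6 hr.one_lt.ne'
      · exact h6
    · have h7 := Nat.le_of_dvd (by have := hq'.two_le; omega) hrq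
      have := hq'.two_le
      omega
  refine ⟨q, hq'.one_le, (criterion hp' hq' hl' (Nat.dvd_of_mod_eq_zero h1) (Nat.dvd_of_mod_eq_zero h2) hord ?_).2⟩
  unfold Nat.ModEq
  rw [h5, Nat.mod_eq_of_lt hp'.one_lt]

lemma t3 : test 3 7 2 := by decide +kernel
lemma t7 : test 7 13 3 := by decide +kernel
lemma t11 : test 11 31 2 := by decide +kernel
lemma t13 : test 13 73 3 := by decide +kernel
lemma t19 : test 19 37 3 := by decide +kernel
lemma t23 : test 23 683 2 := by decide +kernel
lemma t29 : test 29 2129 7 := by decide +kernel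
lemma t31 : test 31 61 3 := by decide +kernel
lemma t37 : test 37 541 3 := by decide +kernel
lemma t41 : test 41 601 5 := by decide +kernel
lemma t43 : test 43 127 2 := by decide +kernel
lemma t47 : test 47 967 2 := by decide +kernel
lemma t53 : test 53 1613 13 := by decide +kernel
lemma t59 : test 59 1103 2 := by decide +kernel
lemma t61 : test 61 1741 3 := by decide +kernel
lemma t67 : test 67 859 2 := by decide +kernel
lemma t71 : test 71 421 7 := by decide +kernel
lemma t73 : test 73 577 3 := by decide +kernel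
lemma t79 : test 79 1171 2 := by decide +kernel
lemma t83 : test 83 739 2 := by decide +kernel
lemma t89 : ∃ σ : ℕ, 1 ≤ σ ∧ maxPeriod σ 89 < ub σ 89 := by
  have hq : Nat.Prime 11177 := by norm_num
  have hcast : ∀ n : ℕ, ((89 : ℕ) : ZMod 11177) ^ n = 1 ↔ 89 ^ n % 11177 = 1 := by
    intro n
    have h6 : ((89 : ℕ) : ZMod 11177) ^ n = 1 ↔ ((89 ^ n : ℕ) : ZMod 11177) = ((1 : ℕ) : ZMod 11177) := by
      push_cast
      exact Iff.rfl
    rw [h6, ZMod.natCast_eq_natCast_iff]
    rfl
  have hord : orderOf ((89 : ℕ) : ZMod 11177) = 11177 - 1 := by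
    refine orderOf_eq_of_pow_and_pow_div_prime (by norm_num) ((hcast _).2 (by decide +kernel)) ?_
    intro r hr hrq
    rw [Ne, hcast]
    have h7 : r ∣ 2 ^ 3 * (11 * 127) := by
      refine hrq.trans (by norm_num)
    rcases (Nat.Prime.dvd_mul hr).1 h7 with h8 | h8
    · have := (Nat.prime_dvd_prime_iff_eq hr Nat.prime_two).1 (hr.dvd_of_dvd_pow h8)
      subst this
      decide +kernel
    · rcases (Nat.Prime.dvd_mul hr).1 h8 with h9 | h9
      · have := (Nat.prime_dvd_prime_iff_eq hr (by norm_num)).1 h9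
        subst this
        decide +kernel
      · have := (Nat.prime_dvd_prime_iff_eq hr (by norm_num)).1 h9
        subst this
        decide +kernel
  refine ⟨11177, by norm_num, (criterion (l := 11) (by norm_num) hq (by norm_num) (by norm_num) (by norm_num) hord ?_).2⟩
  decide +kernel
lemma t97 : test 97 2017 3 := by decide +kernel

/-- **The criterion; the primes below `100`.** -/
theorem result :
    (∀ p q l : ℕ, p.Prime → q.Prime → l.Prime → l ∣ p - 1 → (p - 1) ∣ q - 1 → orderOf (p : ZMod q) = q - 1 →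
      q ^ ((p - 1) / l) ≡ 1 [MOD p] → l * maxPeriod q p ≤ ub q p ∧ maxPeriod q p < ub q p) ∧
    (∀ p : ℕ, p.Prime → p < 100 → p ≠ 2 → p ≠ 5 → p ≠ 17 → ∃ σ : ℕ, 1 ≤ σ ∧ maxPeriod σ p < ub σ p) := by
  refine ⟨fun p q l hp hq hl h1 h2 h3 h4 => criterion hp hq hl h1 h2 h3 h4, ?_⟩
  intro p hp hp1 h2 h5 h17
  have hm : p ∈ (Finset.range 100).filter Nat.Prime := by
    rw [Finset.mem_filter, Finset.mem_range]
    exact ⟨hp1, hp⟩
  have e : (Finset.range 100).filter Nat.Prime = {2, 3, 5, 7, 11, 13, 17, 19, 23, 29, 31, 37, 41, 43, 47, 53, 59, 61, 67, 71,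
      73, 79, 83, 89, 97} := by
    decide +kernel
  rw [e] at hm
  simp only [Finset.mem_insert, Finset.mem_singleton] at hm
  rcases hm with rfl | rfl | rfl | rfl | rfl | rfl | rfl | rfl | rfl | rfl | rfl | rfl | rfl | rfl | rfl | rfl | rfl |
    rfl | rfl | rfl | rfl | rfl | rfl | rfl | rfl
  · exact absurd rfl h2
  · exact of_test t3
  · exact absurd rfl h5
  · exact of_test t7
  · exact of_test t11
  · exact of_test t13
  · exact absurd rfl h17
  · exact of_test t19
  · exact of_test t23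
  · exact of_test t29
  · exact of_test t31
  · exact of_test t37
  · exact of_test t41
  · exact of_test t43
  · exact of_test t47
  · exact of_test t53
  · exact of_test t59
  · exact of_test t61
  · exact of_test t67
  · exact of_test t71
  · exact of_test t73
  · exact of_test t79
  · exact of_test t83
  · exact t89
  · exact of_test t97

end Pool.Agent.Results.MP_146b98_nt.PrimitiveRootCriterion
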